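import Pool.Graph.R_pool_sql_team_seeded_63374d34.N35.HL.Fin

/-!
# The final estimate with the exact number of levels
-/

set_option linter.unusedSectionVars false
set_option linter.unusedVariables false
set_option maxHeartbeats 1000000

namespace Pool.Agent.H56.HL

open Finset Filter Topology Pool.Agent.N35.HL

/-- the number of levels is at most `6 log l / log log l` -/
lemma few_levels' {A : ℕ} (hA : 1 ≤ A) {l : ℕ} (hl : 3 ≤ Real.log l) (s : ℕ) (hs : Mu A s ≤ l) :
    ((s:ℝ) + 2) * Real.log (Real.log l) ≤ 6 * Real.log l := by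
  obtain ⟨y, hy⟩ : ∃ y : ℝ, y = Real.log l := ⟨_, rfl⟩
  rw [← hy] at hl ⊢
  obtain ⟨z, hz⟩ : ∃ z : ℝ, z = Real.log y := ⟨_, rfl⟩
  rw [← hz]
  have hy0 : 0 < y := by linarith
  have hz0 : 0 < z := by rw [hz]; exact Real.log_pos (by linarith)
  have hez : Real.exp z = y := by rw [hz, Real.exp_log hy0]
  have hzy : z ≤ y := by
    have := Real.add_one_le_exp z
    linarith
  have hl1 : (1:ℝ) ≤ l := by
    by_contra hcon
    push Not at hcon
    have h0 : (l : ℝ) = 0 := by
      have : l < 1 := by exact_mod_cast hcon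
      have : l = 0 := by omega
      rw [this]; simp
    rw [h0, Real.log_zero] at hy
    linarith
  have key : (s:ℝ) * z ≤ 4 * y := by
    by_contra hcon
    push Not at hcon
    obtain ⟨h, hh⟩ : ∃ h, h = s / 2 := ⟨_, rfl⟩
    have h1 : (h + 1) ^ (s - h) ≤ l := by
      have h2 := Nat.factorial_mul_pow_le_factorial (m := h) (n := s - h)
      have h3 : h + (s - h) = s := by omega
      rw [h3] at h2
      calc (h + 1) ^ (s - h) = 1 * (h + 1) ^ (s - h) := (one_mul _).symm
        _ ≤ h.factorial * (h + 1) ^ (s - h) := Nat.mul_le_mul_right _ (Nat.factorial_pos h)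
        _ ≤ s.factorial := h2
        _ ≤ Mu A s := factorial_le_Mu hA s
        _ ≤ l := hs
    have h2 : ((h:ℝ) + 1) ^ (s - h) ≤ l := by exact_mod_cast h1
    have h3 : ((s - h : ℕ) : ℝ) * Real.log ((h:ℝ) + 1) ≤ y := by
      rw [← Real.log_pow, hy]
      exact Real.log_le_log (by positivity) h2
    have hs2 : (s:ℝ) / 2 ≤ h + 1 := by
      have : s ≤ 2 * (h + 1) := by omega
      have h4 : (s:ℝ) ≤ 2 * (h + 1) := by exact_mod_cast this
      linarith
    have hs3 : (s:ℝ) / 2 ≤ ((s - h : ℕ) : ℝ) := by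
      have : s ≤ 2 * (s - h) := by omega
      have h4 : (s:ℝ) ≤ 2 * ((s - h : ℕ) : ℝ) := by exact_mod_cast this
      linarith
    have h4 : z / 2 ≤ Real.log ((h:ℝ) + 1) := by
      rw [Real.le_log_iff_exp_le (by positivity)]
      refine le_trans ?_ hs2
      -- `exp (z / 2) ≤ 2 y / z`
      have h5 : Real.exp (z / 2) * Real.exp (z / 2) = y := by
        rw [← Real.exp_add, ← hez]; congr 1; ring
      have h6 := Real.add_one_le_exp (z / 2)
      have h7 : 0 < Real.exp (z / 2) := Real.exp_pos _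
      have h8 : z * Real.exp (z / 2) ≤ 2 * y := by nlinarith
      by_contra h9
      push Not at h9
      have h10 : (s:ℝ) * z ≤ 2 * Real.exp (z / 2) * z := by
        apply mul_le_mul_of_nonneg_right _ hz0.le
        linarith
      nlinarith
    have h5 : (s:ℝ) / 2 * (z / 2) ≤ y := by
      refine le_trans ?_ h3
      exact mul_le_mul hs3 h4 (by positivity) (Nat.cast_nonneg _)
    nlinarith
  nlinarith

lemma log_bounds' {m l : ℕ} {x : ℝ} (h1 : 2 ^ l ≤ m) (h2 : m < 2 ^ (l + 1)) (hl : 10 ≤ l)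
    (hll : 3 ≤ Real.log l) (hx1 : (m:ℝ) ≤ x) (hx2 : x ≤ 8 * m) :
    Real.log x * (Real.log (Real.log (Real.log x)) / Real.log (Real.log x)) ^ 4 ≤
      16 * (l * (Real.log (Real.log l) / Real.log l) ^ 4) := by
  have hl0 : (10:ℝ) ≤ l := by exact_mod_cast hl
  have e1 : (2:ℝ) ^ l ≤ m := by exact_mod_cast h1
  have e2 : (m:ℝ) ≤ 2 ^ (l + 1) := by exact_mod_cast h2.le
  have hp : (0:ℝ) < 2 ^ l := by positivity
  have hx : 0 < x := by linarith
  have l2a := Real.log_two_gt_d9
  have l2b := Real.log_two_lt_d9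
  have h3 : Real.log x ≤ l := by
    have h4 : x ≤ 2 ^ (l + 4) := by
      have : (2:ℝ) ^ (l + 4) = 8 * 2 ^ (l + 1) := by ring
      linarith
    have h5 := Real.log_le_log hx h4
    rw [Real.log_pow] at h5
    push_cast at h5
    nlinarith
  have h4 : 0.69 * (l:ℝ) ≤ Real.log x := by
    have h5 := Real.log_le_log hp (e1.trans hx1)
    rw [Real.log_pow] at h5
    nlinarith
  have h5 : √(l:ℝ) ≤ Real.log x := by
    refine le_trans ?_ h4
    rw [Real.sqrt_le_left (by positivity)]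
    nlinarith
  have h6 : Real.log l / 2 ≤ Real.log (Real.log x) := by
    rw [← Real.log_sqrt (by positivity)]
    exact Real.log_le_log (Real.sqrt_pos.mpr (by linarith)) h5
  have h7 : 0 < Real.log l := by linarith
  have h8 : Real.log (Real.log x) ≤ Real.log l := Real.log_le_log (by linarith) h3
  have h9 : (1:ℝ) ≤ Real.log (Real.log x) := by linarith
  have h10 : Real.log (Real.log (Real.log x)) ≤ Real.log (Real.log l) :=
    Real.log_le_log (by linarith) h8
  have h11 : 0 ≤ Real.log (Real.log (Real.log x)) := Real.log_nonneg h9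
  have h12 : Real.log (Real.log (Real.log x)) / Real.log (Real.log x) ≤
      2 * (Real.log (Real.log l) / Real.log l) := by
    calc Real.log (Real.log (Real.log x)) / Real.log (Real.log x) ≤
          Real.log (Real.log l) / (Real.log l / 2) := div_le_div₀ (by linarith) h10 (by linarith) h6
      _ = _ := by field_simp
  calc Real.log x * (Real.log (Real.log (Real.log x)) / Real.log (Real.log x)) ^ 4
      ≤ l * (2 * (Real.log (Real.log l) / Real.log l)) ^ 4 := by
        apply mul_le_mul h3 _ (by positivity) (by positivity)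
        exact pow_le_pow_left₀ (by positivity) h12 4
    _ = _ := by ring

/-- `l (log log l / log l) ^ 4` tends to infinity -/
lemma big' (c κ : ℝ) (hκ : 0 < κ) :
    ∀ᶠ l : ℕ in atTop, c ≤ κ * (l * (Real.log (Real.log l) / Real.log l) ^ 4) := by
  have hlog : Tendsto (fun l : ℕ => Real.log (Real.log l)) atTop atTop :=
    Real.tendsto_log_atTop.comp (Real.tendsto_log_atTop.comp tendsto_natCast_atTop_atTop)
  filter_upwards [big (|c| / κ), hlog.eventually_ge_atTop 1, eventually_ge_atTop 2] with l h1 h2 h3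
  have h4 : (1:ℝ) ≤ (Real.log (Real.log l)) ^ 4 := one_le_pow₀ h2
  have hl0 : (2:ℝ) ≤ l := by exact_mod_cast h3
  have h7 : 0 < Real.log l := Real.log_pos (by linarith)
  have h5 : (l:ℝ) / (Real.log l) ^ 4 ≤ l * (Real.log (Real.log l) / Real.log l) ^ 4 := by
    rw [div_pow]
    calc (l:ℝ) / (Real.log l) ^ 4 = 1 * (l / (Real.log l) ^ 4) := (one_mul _).symm
      _ ≤ (Real.log (Real.log l)) ^ 4 * (l / (Real.log l) ^ 4) :=
        mul_le_mul_of_nonneg_right h4 (by positivity)
      _ = _ := by ring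
  have h6 : |c| ≤ κ * (l / (Real.log l) ^ 4) := by
    rw [div_le_iff₀ hκ] at h1
    linarith
  calc c ≤ |c| := le_abs_self c
    _ ≤ κ * (l / (Real.log l) ^ 4) := h6
    _ ≤ _ := mul_le_mul_of_nonneg_left h5 hκ.le

theorem finalE' : ∃ c : ℝ, 0 < c ∧ ∀ C : ℝ, ∀ᶠ m : ℕ in atTop, ∃ N E P, KLev.Has N E P ∧ N ≤ m ∧
    ∀ x : ℝ, (m:ℝ) ≤ x → x ≤ 8 * m →
      C * m * Real.exp (c * (Real.log x * (Real.log (Real.log (Real.log x)) /
        Real.log (Real.log x)) ^ 4)) ≤ E := by
  obtain ⟨A, ρ, τ, Bh, hA, hBh, hlev⟩ := levels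
  set ω := 20 + τ + ρ with hω
  set C₁ : ℕ := ω + Bh * (A * (ω + Bh)) with hC₁
  have hC1 : 1 ≤ C₁ := by omega
  have hC1' : (1:ℝ) ≤ C₁ := by exact_mod_cast hC1
  obtain ⟨c, hc⟩ : ∃ c : ℝ, c = 1 / (204 * C₁ * 1296) := ⟨_, rfl⟩
  have hc0 : 0 < c := by rw [hc]; positivity
  refine ⟨c, hc0, fun C => ?_⟩
  have hlog : Tendsto (fun m : ℕ => Nat.log 2 m) atTop atTop := by
    rw [tendsto_atTop]
    intro b
    filter_upwards [eventually_ge_atTop (2 ^ b)] with m hm
    exact Nat.le_log_of_pow_le (by norm_num) hm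
  have hlogl : Tendsto (fun l : ℕ => Real.log l) atTop atTop :=
    Real.tendsto_log_atTop.comp tendsto_natCast_atTop_atTop
  have hev := hlog.eventually ((hlogl.eventually_ge_atTop 3).and
    ((big' (Real.log (10506 / 2500 * (|C| + 1))) c hc0).and (eventually_ge_atTop (ω + Bh + 10))))
  filter_upwards [hev, eventually_ge_atTop 1] with m hm hm1
  obtain ⟨hll, hbig, hl⟩ := hm
  set l := Nat.log 2 m with hldef
  have hlm : 2 ^ l ≤ m := Nat.pow_log_le_self 2 (by omega)
  have hlm2 : m < 2 ^ (l + 1) := Nat.lt_pow_succ_log_self (by norm_num) m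
  obtain ⟨s, q, hs1, hs2⟩ := select hA hBh (by omega : 1 ≤ ω) l (by omega)
  have hμ := Mu_pos (A := A) (by omega) s
  have hle : Mu A s ≤ l := by
    refine le_trans ?_ hs1
    apply Nat.le_mul_of_pos_right
    have : 0 < Bh * (q + 1) ^ 2 := Nat.mul_pos hBh (by positivity)
    omega
  have h1 := few_levels' (A := A) (by omega) hll s hle
  have hl0 : (10:ℝ) ≤ l := by exact_mod_cast (by omega : 10 ≤ l)
  have hL : 0 < Real.log l := by linarith
  have hLL : 0 < Real.log (Real.log l) := Real.log_pos (by linarith)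
  obtain ⟨N, E, P, h2, h3, h4⟩ := (hlev s).fill (Real.exp_nonneg _) q m (by
    refine le_trans (Nat.pow_le_pow_right (by norm_num) (le_trans ?_ hs1)) hlm
    have e1 : (Bh * Mu A s - 1) * (q + 1) ^ 2 ≤ Mu A s * (Bh * (q + 1) ^ 2) := by
      calc (Bh * Mu A s - 1) * (q + 1) ^ 2 ≤ (Bh * Mu A s) * (q + 1) ^ 2 :=
            Nat.mul_le_mul_right _ (Nat.sub_le _ _)
        _ = Mu A s * (Bh * (q + 1) ^ 2) := by ring
    have e2 : (q + 1) * (20 + τ * (s + 1) ^ 4 * Mu A s + ρ * (s + 1) ^ 3 * Mu A s) ≤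
        Mu A s * (ω * (s + 1) ^ 4 * (q + 1)) := by
      have e3 : 1 ≤ (s + 1) ^ 4 := Nat.one_le_pow _ _ (by omega)
      have e4 : 1 * 1 ≤ (s + 1) ^ 4 * Mu A s := Nat.mul_le_mul e3 hμ
      have e5 : ρ * (s + 1) ^ 3 * Mu A s ≤ ρ * (s + 1) ^ 4 * Mu A s := by
        apply Nat.mul_le_mul_right
        apply Nat.mul_le_mul_left
        exact Nat.pow_le_pow_right (by omega) (by norm_num)
      calc (q + 1) * (20 + τ * (s + 1) ^ 4 * Mu A s + ρ * (s + 1) ^ 3 * Mu A s)
          ≤ (q + 1) * (20 * ((s + 1) ^ 4 * Mu A s) + τ * (s + 1) ^ 4 * Mu A s +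
              ρ * (s + 1) ^ 4 * Mu A s) := by
            apply Nat.mul_le_mul_left
            omega
        _ = Mu A s * (ω * (s + 1) ^ 4 * (q + 1)) := by rw [hω]; ring
    calc (q + 1) * (20 + τ * (s + 1) ^ 4 * Mu A s + ρ * (s + 1) ^ 3 * Mu A s) +
          (Bh * Mu A s - 1) * (q + 1) ^ 2
        ≤ Mu A s * (ω * (s + 1) ^ 4 * (q + 1)) + Mu A s * (Bh * (q + 1) ^ 2) :=
          Nat.add_le_add e2 e1
      _ = Mu A s * (ω * (s + 1) ^ 4 * (q + 1) + Bh * (q + 1) ^ 2) := by ring)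
  refine ⟨N, E, P, h2, h3, ?_⟩
  intro x hx1 hx2
  have hx3 := log_bounds' hlm hlm2 (by omega) hll hx1 hx2
  set y : ℝ := l * (Real.log (Real.log l) / Real.log l) ^ 4 with hy
  have hy0 : 0 ≤ y := by positivity
  have hm0 : (0:ℝ) ≤ m := Nat.cast_nonneg _
  have hμ0 : (1:ℝ) ≤ Mu A s := by exact_mod_cast hμ
  -- the gain
  have h5 : 17 * (c * y) ≤ 1 / 3 * Mu A s * (q + 1) := by
    have e1 : (l:ℝ) ≤ 4 * C₁ * (s + 2) ^ 4 * (Mu A s * (q + 1)) := by exact_mod_cast hs2
    have e2 : (((s:ℝ) + 2) * Real.log (Real.log l)) ^ 4 ≤ (6 * Real.log l) ^ 4 :=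
      pow_le_pow_left₀ (by positivity) h1 4
    have e3 : ((s:ℝ) + 2) ^ 4 * (Real.log (Real.log l) / Real.log l) ^ 4 ≤ 1296 := by
      rw [div_pow, ← mul_div_assoc, div_le_iff₀ (by positivity)]
      calc ((s:ℝ) + 2) ^ 4 * Real.log (Real.log l) ^ 4 = (((s:ℝ) + 2) * Real.log (Real.log l)) ^ 4 := by ring
        _ ≤ (6 * Real.log l) ^ 4 := e2
        _ = 1296 * Real.log l ^ 4 := by ring
    have e6 : (0:ℝ) ≤ Mu A s * (q + 1) := by positivity
    have e7 : y ≤ 4 * C₁ * 1296 * (Mu A s * (q + 1)) := by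
      calc y ≤ (4 * C₁ * (s + 2) ^ 4 * (Mu A s * (q + 1))) * (Real.log (Real.log l) / Real.log l) ^ 4 := by
            rw [hy]
            exact mul_le_mul_of_nonneg_right e1 (by positivity)
        _ = 4 * C₁ * (Mu A s * (q + 1)) * (((s:ℝ) + 2) ^ 4 * (Real.log (Real.log l) / Real.log l) ^ 4) := by ring
        _ ≤ 4 * C₁ * (Mu A s * (q + 1)) * 1296 := mul_le_mul_of_nonneg_left e3 (by positivity)
        _ = _ := by ring
    calc 17 * (c * y) = (17 * c) * y := by ring
      _ ≤ (17 * c) * (4 * C₁ * 1296 * (Mu A s * (q + 1))) := mul_le_mul_of_nonneg_left e7 (by positivity)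
      _ = (17 * 4 / 204) * (Mu A s * (q + 1)) := by
        rw [hc]; field_simp
      _ = _ := by ring
  -- the ratio
  have h6 : Real.exp (17 * (c * y)) ≤ Real.exp (1 / 3 * (1 + 1 / ((s:ℝ) + 1)) * Mu A s) ^ (q + 1) := by
    rw [← Real.exp_nat_mul]
    apply Real.exp_le_exp.mpr
    refine h5.trans ?_
    push_cast
    have e1 : 0 ≤ 1 / ((s:ℝ) + 1) := by positivity
    have e2 : 0 ≤ 1 / ((s:ℝ) + 1) * ((Mu A s : ℝ) * (q + 1)) := by positivity
    linarith
  have h7 : |C| + 1 ≤ 2500 / 10506 * Real.exp (c * y) := by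
    have e1 : (0:ℝ) < 10506 / 2500 * (|C| + 1) := by positivity
    have e2 := Real.exp_le_exp.mpr hbig
    rw [Real.exp_log e1] at e2
    linarith
  have hx4 : c * (Real.log x * (Real.log (Real.log (Real.log x)) / Real.log (Real.log x)) ^ 4) ≤
      16 * (c * y) := by
    have := mul_le_mul_of_nonneg_left hx3 hc0.le
    linarith
  calc C * m * Real.exp (c * (Real.log x * (Real.log (Real.log (Real.log x)) / Real.log (Real.log x)) ^ 4))
      ≤ (|C| + 1) * m * Real.exp (16 * (c * y)) := by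
        apply mul_le_mul _ (Real.exp_le_exp.mpr hx4) (Real.exp_nonneg _) (by positivity)
        exact mul_le_mul_of_nonneg_right (by linarith [le_abs_self C]) hm0
    _ ≤ (2500 / 10506 * Real.exp (c * y)) * m * Real.exp (16 * (c * y)) := by
        apply mul_le_mul_of_nonneg_right _ (Real.exp_nonneg _)
        exact mul_le_mul_of_nonneg_right h7 hm0
    _ = 2500 / 10506 * (Real.exp (c * y) * Real.exp (16 * (c * y))) * m := by ring
    _ = 2500 / 10506 * Real.exp (17 * (c * y)) * m := by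
        rw [← Real.exp_add]
        congr 3
        ring
    _ ≤ 2500 / 10506 * Real.exp (1 / 3 * (1 + 1 / ((s:ℝ) + 1)) * Mu A s) ^ (q + 1) * m := by
        apply mul_le_mul_of_nonneg_right _ hm0
        exact mul_le_mul_of_nonneg_left h6 (by norm_num)
    _ ≤ E := h4

/-- the final estimate in the form `x ^ (1 + c (log log log x / log log x) ^ 4)` -/
theorem finalP' : ∃ c : ℝ, 0 < c ∧ ∀ C : ℝ, ∀ᶠ m : ℕ in atTop, ∃ N E P, KLev.Has N E P ∧ N ≤ m ∧
    ∀ x : ℝ, (m:ℝ) ≤ x → x ≤ 8 * m →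
      C * x ^ (1 + c * (Real.log (Real.log (Real.log x)) / Real.log (Real.log x)) ^ 4) ≤ E := by
  obtain ⟨c, hc, hE⟩ := finalE'
  refine ⟨c, hc, fun C => ?_⟩
  filter_upwards [hE (8 * max C 0), eventually_ge_atTop 1] with m hm hm1
  obtain ⟨N, E, P, h1, h2, h3⟩ := hm
  refine ⟨N, E, P, h1, h2, ?_⟩
  intro x hx1 hx2
  have hm0 : (0:ℝ) < m := by exact_mod_cast hm1
  have hx : 0 < x := by linarith
  have h4 := h3 x hx1 hx2
  have e : x ^ (1 + c * (Real.log (Real.log (Real.log x)) / Real.log (Real.log x)) ^ 4) =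
      x * Real.exp (c * (Real.log x * (Real.log (Real.log (Real.log x)) / Real.log (Real.log x)) ^ 4)) := by
    rw [Real.rpow_add hx, Real.rpow_one, Real.rpow_def_of_pos hx]
    congr 2
    ring
  rw [e]
  have h5 : 0 ≤ max C 0 := le_max_right _ _
  calc C * (x * Real.exp (c * (Real.log x * (Real.log (Real.log (Real.log x)) / Real.log (Real.log x)) ^ 4)))
      ≤ max C 0 * (x * Real.exp (c * (Real.log x * (Real.log (Real.log (Real.log x)) / Real.log (Real.log x)) ^ 4))) :=
        mul_le_mul_of_nonneg_right (le_max_left _ _) (by positivity)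
    _ ≤ max C 0 * ((8 * m) * Real.exp (c * (Real.log x * (Real.log (Real.log (Real.log x)) / Real.log (Real.log x)) ^ 4))) := by
        apply mul_le_mul_of_nonneg_left _ h5
        exact mul_le_mul_of_nonneg_right hx2 (Real.exp_nonneg _)
    _ = 8 * max C 0 * m * Real.exp (c * (Real.log x * (Real.log (Real.log (Real.log x)) / Real.log (Real.log x)) ^ 4)) := by ring
    _ ≤ E := h4

end Pool.Agent.H56.HL
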